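import Pool.Agent.P.MP_5f6af4_co.Orbit

set_option autoImplicit false
set_option linter.unusedSectionVars false
set_option linter.unusedSimpArgs false

namespace Pool.Agent.P.MP_5f6af4_co

open Finset

/-- Plotkin type bound. -/
lemma plotkin {G : Type} [Fintype G] [DecidableEq G] (J k : ℕ) (δ e : ℤ) (A : ℕ → Finset G)
    (hk : ∀ i < J, (A i).card = k)
    (hd : ∀ i < J, ∀ j < i, ((A i ∩ A j).card : ℤ) ≤ k - δ) :
    (J : ℤ) * (J - 1) * δ ≤ (Fintype.card G : ℤ) * e * (e + 1) + J * (J - 2 * e - 1) * k := by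
  set d : G → ℤ := fun x => ∑ i ∈ range J, if x ∈ A i then 1 else 0 with hd'
  have hcard : ∀ B : Finset G, ∑ x, (if x ∈ B then (1 : ℤ) else 0) = B.card := by
    intro B
    simp
  have h1 : ∑ x, d x = J * k := by
    rw [hd', Finset.sum_comm]
    rw [Finset.sum_congr rfl (fun i hi => by rw [hcard, hk i (mem_range.mp hi)])]
    simp
  have h2 : ∑ x, d x ^ 2 = ∑ i ∈ range J, ∑ j ∈ range J, ((A i ∩ A j).card : ℤ) := by
    simp only [hd', sq, Finset.sum_mul_sum]
    rw [Finset.sum_comm]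
    refine Finset.sum_congr rfl fun i _ => ?_
    rw [Finset.sum_comm]
    refine Finset.sum_congr rfl fun j _ => ?_
    rw [← hcard]
    refine Finset.sum_congr rfl fun x _ => ?_
    by_cases ha : x ∈ A i <;> by_cases hb : x ∈ A j <;> simp [ha, hb]
  have h3 : ∑ i ∈ range J, ∑ j ∈ range J, ((A i ∩ A j).card : ℤ)
      ≤ ∑ i ∈ range J, ∑ j ∈ range J, ((k - δ) + if i = j then δ else 0) := by
    refine Finset.sum_le_sum fun i hi => Finset.sum_le_sum fun j hj => ?_
    rw [mem_range] at hi hj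
    rcases lt_trichotomy i j with h | h | h
    · have := hd j hj i h
      rw [inter_comm] at this
      simpa [h.ne] using this
    · subst h
      simp [hk i hi]
    · have := hd i hi j h
      simpa [h.ne'] using this
  have h4 : ∑ i ∈ range J, ∑ j ∈ range J, ((k - δ) + if i = j then δ else 0)
      = J * (J * (k - δ) + δ) := by
    rw [Finset.sum_congr rfl (g := fun _ => J * (k - δ) + δ)]
    · simp
    · intro i hi
      rw [Finset.sum_add_distrib, Finset.sum_ite_eq]
      simp [hi, mul_sub]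
  have h5 : ∑ x, ((2 * e + 1) * d x - e * (e + 1)) ≤ ∑ x, d x ^ 2 := by
    refine Finset.sum_le_sum fun x _ => ?_
    rcases le_or_gt (d x) e with h | h
    · nlinarith
    · have : e + 1 ≤ d x := h
      nlinarith
  rw [Finset.sum_sub_distrib, ← Finset.mul_sum, h1] at h5
  simp only [Finset.sum_const, card_univ, nsmul_eq_mul] at h5
  nlinarith

section
variable {v : ℕ} [NeZero v]

lemma mu_mu (s t : ZMod v) (X : GR (ZMod v)) : mu s (mu t X) = mu (s * t) X := by
  unfold mu
  rw [push_push]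
  exact push_congr (fun g => by simp [mul_assoc]) X

lemma mu_one (X : GR (ZMod v)) : mu 1 X = X := push_id' (fun g => by simp) X

lemma mu_el (s g : ZMod v) : mu s (el g) = el (s * g) := push_el _ g

lemma mu_cj (s : ZMod v) (X : GR (ZMod v)) : mu s (cj X) = cj (mu s X) := push_cj _ X

lemma aug_mu (s : ZMod v) (X : GR (ZMod v)) : aug (mu s X) = aug X := aug_push _ X

lemma mu_allG {s : ZMod v} (hs : IsUnit s) : mu s (allG (ZMod v)) = allG (ZMod v) :=
  push_allG (fun _ _ h => hs.mul_left_cancel h)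

lemma mu_ind {s : ZMod v} (hs : IsUnit s) (D : Finset (ZMod v)) :
    mu s (ind D) = ind (D.image (fun x => s * x)) :=
  push_ind (φ := AddMonoidHom.mulLeft s) (fun _ _ h => hs.mul_left_cancel h) D

lemma el_mul_allG (g : ZMod v) : el g * allG (ZMod v) = allG (ZMod v) := by
  rw [mul_allG, aug_el]
  simp

lemma dvd_of_primes (n : ℕ) (y : ℤ)
    (h : ∀ u : ℕ, u.Prime → u ∣ n → ∀ a : ℕ, u ^ a ∣ n → (u : ℤ) ^ a ∣ y) : (n : ℤ) ∣ y := by
  rw [Int.natCast_dvd]
  rw [Nat.dvd_iff_prime_pow_dvd_dvd]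
  intro p a hp hpa
  rcases Nat.eq_zero_or_pos a with rfl | ha
  · simp
  have := h p hp ((dvd_pow_self p ha.ne').trans hpa) a hpa
  rw [← Int.natCast_dvd]
  exact_mod_cast this

/-- `A` and `B` are translates of each other -/
def Tr (A B : GR (ZMod v)) : Prop := ∃ g, A = el g * B

lemma Tr.refl (A : GR (ZMod v)) : Tr A A := ⟨0, by rw [el_zero, one_mul]⟩

lemma Tr.symm {A B : GR (ZMod v)} (h : Tr A B) : Tr B A := by
  obtain ⟨g, rfl⟩ := h
  exact ⟨-g, by rw [← mul_assoc, ← el_add, neg_add_cancel, el_zero, one_mul]⟩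

lemma Tr.trans {A B C : GR (ZMod v)} (h : Tr A B) (h' : Tr B C) : Tr A C := by
  obtain ⟨g, rfl⟩ := h
  obtain ⟨g', rfl⟩ := h'
  exact ⟨g + g', by rw [el_add, mul_assoc]⟩

lemma Tr.map {A B : GR (ZMod v)} (s : ZMod v) (h : Tr A B) : Tr (mu s A) (mu s B) := by
  obtain ⟨g, rfl⟩ := h
  exact ⟨s * g, by rw [map_mul, mu_el]⟩

lemma Tr.pow {X : GR (ZMod v)} {s t : ZMod v} (h : Tr (mu s X) (mu t X)) (i : ℕ) :
    Tr (mu (s ^ i) X) (mu (t ^ i) X) := by
  induction i with
  | zero => simpa using Tr.refl _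
  | succ i ih =>
    have h1 := ih.map s
    have h2 := h.map (t ^ i)
    rw [mu_mu, mu_mu] at h1 h2
    rw [pow_succ', pow_succ]
    rw [mul_comm] at h2
    exact h1.trans h2

/-- divisibility of all coefficients passes along translation -/
lemma cong_of_tr {X A B : GR (ZMod v)} {c d : ℤ} (h : Tr A B)
    (hB : ∀ g, d ∣ (B * cj X - (c : GR (ZMod v)) * allG _).coeff g) (g : ZMod v) :
    d ∣ (A * cj X - (c : GR (ZMod v)) * allG _).coeff g := by
  obtain ⟨x, rfl⟩ := h
  have : el x * B * cj X - (c : GR (ZMod v)) * allG _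
      = el x * (B * cj X - (c : GR (ZMod v)) * allG _) := by
    have := el_mul_allG x
    linear_combination (c : GR (ZMod v)) * this
  rw [this, coeff_el_mul]
  exact hB _

/-- algebraic form of a difference set -/
structure DS (X : GR (ZMod v)) (n lam : ℤ) : Prop where
  eq : X * cj X = (n : GR (ZMod v)) + (lam : GR (ZMod v)) * allG _
  card : aug X = n + lam

lemma DS.sq {X : GR (ZMod v)} {n lam : ℤ} (h : DS X n lam) : (n + lam) ^ 2 = n + lam * v := by
  have := congrArg aug h.eq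
  simp only [map_mul, map_add, map_intCast, aug_cj, aug_allG, h.card, ZMod.card,
    Int.cast_id] at this
  rw [← this]
  ring

lemma DS.map {X : GR (ZMod v)} {n lam : ℤ} (h : DS X n lam) {s : ZMod v} (hs : IsUnit s) :
    DS (mu s X) n lam := by
  constructor
  · rw [← mu_cj, ← map_mul, h.eq]
    simp [mu_allG hs]
  · rw [aug_mu, h.card]

lemma DS.tr {X Y : GR (ZMod v)} {n lam : ℤ} (h : DS X n lam) (hY : Tr Y X) : DS Y n lam := by
  obtain ⟨g, rfl⟩ := hY
  constructor
  · rw [← h.eq, map_mul]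
    have := el_mul_cj g
    linear_combination (X * cj X) * this
  · rw [map_mul, aug_el, one_mul, h.card]

lemma cj_F (A B : GR (ZMod v)) (lam : ℤ) :
    cj (A * cj B - (lam : GR (ZMod v)) * allG _) = B * cj A - (lam : GR (ZMod v)) * allG _ := by
  simp only [map_sub, map_mul, map_intCast, cj_cj, cj_allG]
  ring

lemma F_mul {A B C : GR (ZMod v)} {n lam : ℤ} (hA : DS A n lam) (hB : DS B n lam)
    (hC : DS C n lam) :
    (A * cj B - (lam : GR (ZMod v)) * allG _) * (B * cj C - (lam : GR (ZMod v)) * allG _)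
      = (n : GR (ZMod v)) * (A * cj C - (lam : GR (ZMod v)) * allG _) := by
  have h1 := mul_allG (A * cj B)
  have h2 := mul_allG (B * cj C)
  have h3 := mul_allG (A * cj C)
  have h4 := mul_allG (allG (ZMod v))
  simp only [map_mul, aug_cj, hA.card, hB.card, hC.card, aug_allG, ZMod.card] at h1 h2 h3 h4
  have h5 := congrArg (fun y : ℤ => (y : GR (ZMod v))) hA.sq
  have h6 := hB.eq
  push_cast at h1 h2 h3 h4 h5
  linear_combination (A * cj C) * h6 - (lam : GR (ZMod v)) * h1 - (lam : GR (ZMod v)) * h2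
    + (lam : GR (ZMod v)) * h3 + (lam : GR (ZMod v)) ^ 2 * h4
    - (lam : GR (ZMod v)) * allG (ZMod v) * h5

lemma aug_F {A B : GR (ZMod v)} {n lam : ℤ} (hA : DS A n lam) (hB : DS B n lam) :
    aug (A * cj B - (lam : GR (ZMod v)) * allG _) = n := by
  simp only [map_sub, map_mul, map_intCast, aug_cj, hA.card, hB.card, aug_allG, ZMod.card,
    Int.cast_id]
  linear_combination hA.sq

lemma E_props {A B E : GR (ZMod v)} {n1 m lam : ℤ} (hn1 : n1 ≠ 0) (hA : DS A (n1 * m) lam)
    (hB : DS B (n1 * m) lam)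
    (hE : A * cj B - (lam : GR (ZMod v)) * allG _ = (n1 : GR (ZMod v)) * E) :
    E * cj E = ((m ^ 2 : ℤ) : GR (ZMod v)) ∧ aug E = m := by
  constructor
  · have h1 := F_mul hA hB hA
    rw [← cj_F A B, hE, hA.eq] at h1
    apply intCast_mul_cancel (c := n1 ^ 2) (pow_ne_zero 2 hn1)
    simp only [map_mul, map_intCast] at h1
    push_cast at h1 ⊢
    linear_combination h1
  · have h1 := aug_F hA hB
    rw [hE] at h1
    simp only [map_mul, map_intCast, Int.cast_id] at h1
    exact mul_left_cancel₀ hn1 h1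

/-- a multiplier theorem for the auxiliary solution -/
lemma E_mult {E : GR (ZMod v)} {m : ℕ} (hm : m ≠ 0)
    (hE : E * cj E = (((m : ℤ) ^ 2 : ℤ) : GR (ZMod v))) (ha : aug E = m) {z : ZMod v}
    (h : ∀ q : ℕ, q.Prime → q ∣ m → ¬ q ∣ v ∧ ∃ j : ℕ, Tr (mu z E) (mu ((q : ZMod v) ^ j) E)) :
    Tr (mu z E) E := by
  have hm' : ((m : ℤ) ^ 2) ≠ 0 := pow_ne_zero 2 (by exact_mod_cast hm)
  have h1 : ∀ g, ((m ^ 2 : ℕ) : ℤ) ∣
      (mu z E * cj E - ((0 : ℤ) : GR (ZMod v)) * allG _).coeff g := by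
    intro g
    apply dvd_of_primes
    intro q hq hqm a ha'
    obtain ⟨hqv, j, hj⟩ := h q hq (hq.dvd_of_dvd_pow hqm)
    apply cong_of_tr hj
    intro g'
    apply basic_cong q hq hqv E ((m : ℤ) ^ 2) 0 (by rw [hE]; simp)
    exact_mod_cast ha'
  obtain ⟨W, hW⟩ := exists_of_dvd _ _ h1
  simp only [Int.cast_zero, zero_mul, sub_zero] at hW
  have h2 : mu z E * cj (mu z E) = (((m : ℤ) ^ 2 : ℤ) : GR (ZMod v)) := by
    rw [← mu_cj, ← map_mul, hE, map_intCast]
  have hW' := congrArg cj hW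
  simp only [map_mul, cj_cj, map_intCast] at hW'
  have h3 : W * cj W = 1 := by
    apply intCast_mul_cancel (c := ((m : ℤ) ^ 2) ^ 2) (pow_ne_zero 2 hm')
    push_cast at hW hW' h2 hE ⊢
    linear_combination (-((m : GR (ZMod v)) ^ 2 * cj W)) * hW - (mu z E * cj E) * hW'
      + (E * cj E) * h2 + (m : GR (ZMod v)) ^ 2 * hE
  have h4 : aug W = 1 := by
    have := congrArg aug hW
    simp only [map_mul, aug_mu, aug_cj, ha, map_intCast, Int.cast_id] at this
    apply mul_left_cancel₀ hm'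
    push_cast at this
    linear_combination -this
  obtain ⟨g, rfl⟩ := trivial_unit h3 h4
  refine ⟨g, ?_⟩
  apply intCast_mul_cancel (c := (m : ℤ) ^ 2) hm'
  push_cast at hW hE ⊢
  linear_combination E * hW - mu z E * hE

lemma DS_of (D : Finset (ZMod v)) (n lam : ℕ) (hk : D.card = lam + n)
    (hD : ∀ d : ZMod v, d ≠ 0 → ((D ×ˢ D).filter (fun x => x.1 - x.2 = d)).card = lam) :
    DS (ind D) n lam := by
  constructor
  · apply ext_coeff
    intro g
    rw [AddMonoidAlgebra.coeff_add, Finsupp.add_apply, coeff_intCast_mul, coeff_allG,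
      coeff_intCast]
    by_cases hg : g = 0
    · subst hg
      rw [ind_inter, inter_self, hk]
      simp [add_comm]
    · rw [ind_mul_cj, hD g hg]
      simp [Ne.symm hg]
  · rw [aug_ind, hk]
    push_cast
    ring

lemma tr_of_image {D : Finset (ZMod v)} {s t g : ZMod v} (hs : IsUnit s) (ht : IsUnit t)
    (h : D.image (fun x => s * x) = D.image (fun x => t * x + g)) :
    Tr (mu s (ind D)) (mu t (ind D)) := by
  refine ⟨g, ?_⟩
  rw [mu_ind hs, mu_ind ht, el_mul_ind, h, Finset.image_image]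
  rfl

lemma image_of_tr {D : Finset (ZMod v)} {s : ZMod v} (hs : IsUnit s)
    (h : Tr (mu s (ind D)) (ind D)) :
    ∃ g, D.image (fun x => s * x) = D.image (fun x => x + g) := by
  obtain ⟨g, hg⟩ := h
  rw [mu_ind hs, el_mul_ind] at hg
  exact ⟨g, ind_inj hg⟩

lemma exp_zero {D : Finset (ZMod v)} {lam : ℕ} (hlam : 0 < lam)
    (hD : ∀ d : ZMod v, d ≠ 0 → ((D ×ˢ D).filter (fun x => x.1 - x.2 = d)).card = lam)
    {s g : ZMod v} (hs : IsUnit s) {u j : ℕ} (hu : u.Prime) (huv : u ∣ v)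
    (h : D.image (fun x => s * x) = D.image (fun x => (u : ZMod v) ^ j * x + g)) : j = 0 := by
  by_contra hj
  have hv : 1 < v := lt_of_lt_of_le hu.one_lt (Nat.le_of_dvd (Nat.pos_of_ne_zero (NeZero.ne v)) huv)
  have : Fact (1 < v) := ⟨hv⟩
  have h1 := hD 1 one_ne_zero
  obtain ⟨⟨a, b⟩, hab⟩ := Finset.card_pos.mp (h1 ▸ hlam)
  simp only [mem_filter, mem_product] at hab
  obtain ⟨⟨ha, hb⟩, hab⟩ := hab
  have ha' : s * a ∈ D.image (fun x => s * x) := mem_image_of_mem _ ha
  have hb' : s * b ∈ D.image (fun x => s * x) := mem_image_of_mem _ hb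
  rw [h, mem_image] at ha' hb'
  obtain ⟨a', _, ha'⟩ := ha'
  obtain ⟨b', _, hb'⟩ := hb'
  have h2 : s = (u : ZMod v) ^ j * (a' - b') := by
    linear_combination hb' - ha' - s * hab
  rw [h2] at hs
  have h3 : IsUnit (u : ZMod v) := (isUnit_pow_iff hj).mp (isUnit_of_mul_isUnit_left hs)
  rw [ZMod.isUnit_iff_coprime] at h3
  exact (Nat.Prime.coprime_iff_not_dvd hu).mp h3 huv

lemma unit_sub_one (z : ℕ) (h : ∀ r : ℕ, r.Prime → r ∣ v → 2 ≤ orderOf (z : ZMod r)) :
    IsUnit ((z : ZMod v) - 1) := by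
  have h1 : (z : ZMod v) - 1 = (((z : ℤ) - 1 : ℤ) : ZMod v) := by push_cast; rfl
  rw [h1, ZMod.coe_int_isUnit_iff_isCoprime, Int.isCoprime_iff_gcd_eq_one]
  by_contra hc
  obtain ⟨r, hr, hrd⟩ := Nat.exists_prime_and_dvd hc
  have h2 : r ∣ v := by
    have := (Int.natCast_dvd_natCast.mpr hrd).trans (Int.gcd_dvd_left _ _)
    exact_mod_cast this
  have h3 : (r : ℤ) ∣ (z : ℤ) - 1 := (Int.natCast_dvd_natCast.mpr hrd).trans (Int.gcd_dvd_right _ _)
  have h4 : (z : ZMod r) = 1 := by
    have := (ZMod.intCast_zmod_eq_zero_iff_dvd _ r).mpr h3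
    push_cast at this
    linear_combination this
  have h5 := h r hr h2
  rw [h4, orderOf_one] at h5
  omega

lemma tr_E {X E : GR (ZMod v)} {n1 lam : ℤ} (hn1 : n1 ≠ 0) {a z s : ZMod v} (hz : IsUnit z)
    (hs : IsUnit s)
    (hE : mu a X * cj X - (lam : GR (ZMod v)) * allG _ = (n1 : GR (ZMod v)) * E)
    (h : Tr (mu z X) (mu s X)) : Tr (mu z E) (mu s E) := by
  obtain ⟨g, hg⟩ := h
  refine ⟨a * g + -g, ?_⟩
  apply intCast_mul_cancel hn1
  have h1 := congrArg (mu z) hE
  have h2 := congrArg (mu s) hE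
  simp only [map_sub, map_mul, map_intCast, mu_cj, mu_allG hz, mu_allG hs] at h1 h2
  have h3 : mu z (mu a X) = el (a * g) * mu s (mu a X) := by
    rw [mu_mu, mu_mu, mul_comm z, mul_comm s, ← mu_mu, ← mu_mu, hg, map_mul, mu_el]
  have h4 : cj (mu z X) = el (-g) * cj (mu s X) := by rw [hg, map_mul, cj_el]
  have h5 := el_mul_allG (a * g + -g)
  rw [h3, h4] at h1
  rw [el_add] at h5 ⊢
  linear_combination -h1 + (el (a * g) * el (-g)) * h2 + (lam : GR (ZMod v)) * h5

lemma gcd_tr {X : GR (ZMod v)} {t : ZMod v} (ht : IsUnit t) {i : ℕ}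
    (h : Tr (mu (t ^ i) X) X) : Tr (mu (t ^ Nat.gcd i (orderOf t)) X) X := by
  have hpos : 0 < orderOf t := by
    obtain ⟨u, rfl⟩ := ht
    rw [orderOf_units]
    exact orderOf_pos u
  rcases (Nat.le_of_dvd hpos (Nat.gcd_dvd_right i (orderOf t))).lt_or_eq with h1 | h1
  · obtain ⟨a, _, ha⟩ := Nat.exists_mul_mod_eq_gcd h1
    have h2 : Tr (mu (t ^ i) X) (mu 1 X) := by rwa [mu_one]
    have h3 := h2.pow a
    rwa [one_pow, mu_one, ← pow_mul, ← pow_mod_orderOf, ha] at h3
  · rw [h1, pow_orderOf_eq_one, mu_one]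
    exact Tr.refl X

end

theorem main (v k lam n1 m f J t z : ℕ) (e : ℤ) [NeZero v] (D : Finset (ZMod v))
    (hk : D.card = k)
    (hD : ∀ d : ZMod v, d ≠ 0 → ((D ×ˢ D).filter (fun x => x.1 - x.2 = d)).card = lam)
    (hn : k = lam + n1 * m) (hm : 0 < m) (htv : Nat.Coprime t v) (hzv : Nat.Coprime z v)
    (ht : ∀ u : ℕ, u.Prime → u ∣ n1 → ∃ (j : ℕ) (g : ZMod v),
      D.image (fun x => (t : ZMod v) * x) = D.image (fun x => (u : ZMod v) ^ j * x + g))
    (hz : ∀ q : ℕ, q.Prime → q ∣ m → ∃ (j : ℕ) (g : ZMod v),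
      D.image (fun x => (z : ZMod v) * x) = D.image (fun x => (q : ZMod v) ^ j * x + g))
    (hf : ∀ r : ℕ, r.Prime → r ∣ v → f ≤ orderOf (z : ZMod r))
    (hineq : (v : ℤ) * e * (e + 1) + J * (J - 2 * e - 1) * k < J * (J - 1) * (n1 * f)) :
    ∃ i : ℕ, 0 < i ∧ i < J ∧ i ∣ orderOf (t : ZMod v) ∧
      ∃ g : ZMod v, D.image (fun x => (t : ZMod v) ^ i * x) = D.image (fun x => x + g) := by
  have htu : IsUnit (t : ZMod v) := (ZMod.isUnit_iff_coprime t v).mpr htv
  have hzu : IsUnit (z : ZMod v) := (ZMod.isUnit_iff_coprime z v).mpr hzv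
  have hordpos : 0 < orderOf (t : ZMod v) := by
    obtain ⟨u, hu⟩ := htu
    rw [← hu, orderOf_units]
    exact orderOf_pos u
  set X := ind D with hX
  have hDS : DS X ((n1 : ℤ) * m) lam := by
    have := DS_of D (n1 * m) lam (hk.trans hn) hD
    simpa using this
  by_contra hcon
  have hno : ∀ i, 0 < i → i < J → ¬ Tr (mu ((t : ZMod v) ^ i) X) X := by
    intro i hi hiJ h
    apply hcon
    refine ⟨Nat.gcd i (orderOf (t : ZMod v)), Nat.gcd_pos_of_pos_left _ hi,
      lt_of_le_of_lt (Nat.gcd_le_left _ hi) hiJ, Nat.gcd_dvd_right _ _, ?_⟩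
    exact image_of_tr (htu.pow _) (gcd_tr htu h)
  have hP0 := plotkin J k 0 e (fun _ => D) (fun _ _ => hk) (fun _ _ _ _ => by simp [hk])
  rw [ZMod.card] at hP0
  have hJ : 2 ≤ J := by
    by_contra hc
    have : J = 0 ∨ J = 1 := by omega
    rcases this with rfl | rfl <;> simp at hP0 hineq <;> linarith
  have hn1 : n1 ≠ 0 := by
    rintro rfl
    simp at hP0 hineq
    linarith
  have hn1' : (n1 : ℤ) ≠ 0 := by exact_mod_cast hn1
  have hJv : J ≤ v := by
    by_contra hc
    apply hno (orderOf (t : ZMod v)) hordpos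
    · have h1 : orderOf (t : ZMod v) ≤ Fintype.card (ZMod v) := orderOf_le_card_univ
      rw [ZMod.card] at h1
      omega
    · rw [pow_orderOf_eq_one, mu_one]
      exact Tr.refl X
  have hmf : m < f := by
    have hP := plotkin J k ((n1 : ℤ) * m) e (fun i => D.image (fun x => x + (i : ZMod v)))
      (fun i _ => by rw [Finset.card_image_of_injective _ (add_left_injective _), hk])
      (fun i hi j hj => by
        rw [← ind_inter, ← el_mul_ind, ← el_mul_ind, map_mul, cj_el]
        have h1 : el (i : ZMod v) * ind D * (el (-(j : ZMod v)) * cj (ind D))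
            = el ((i : ZMod v) + -(j : ZMod v)) * (ind D * cj (ind D)) := by
          rw [el_add]; ring
        rw [h1, coeff_el_mul, ind_mul_cj, hD, hn]
        · push_cast
          linarith
        · intro h2
          have h3 : (i : ZMod v) = (j : ZMod v) := by linear_combination -h2
          rw [ZMod.natCast_eq_natCast_iff] at h3
          have := Nat.ModEq.eq_of_lt_of_lt h3 (by omega) (by omega)
          omega)
    rw [ZMod.card] at hP
    have h1 : (J : ℤ) * (J - 1) * (n1 * m) < J * (J - 1) * (n1 * f) := lt_of_le_of_lt hP hineq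
    have h2 : (0 : ℤ) < J * (J - 1) := by
      have : (2 : ℤ) ≤ J := by exact_mod_cast hJ
      nlinarith
    have h3 := lt_of_mul_lt_mul_left h1 h2.le
    have h4 : (0 : ℤ) < n1 := by exact_mod_cast Nat.pos_of_ne_zero hn1
    have h5 := lt_of_mul_lt_mul_left h3 h4.le
    exact_mod_cast h5
  have hlam : ∀ u : ℕ, u.Prime → u ∣ n1 * m → 0 < lam := by
    intro u hu hun
    by_contra hc
    have h0 : lam = 0 := by omega
    have h1 := hDS.sq
    rw [h0] at h1
    have h2 : (0 : ℤ) < (n1 : ℤ) * m := by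
      have := Nat.pos_of_ne_zero hn1
      positivity
    have h3 : (n1 : ℤ) * m = 1 := by
      simp only [Nat.cast_zero, add_zero, zero_mul] at h1
      nlinarith
    have h4 : n1 * m = 1 := by exact_mod_cast h3
    rw [h4] at hun
    exact hu.one_lt.ne' (Nat.dvd_one.mp hun)
  have ht' : ∀ u : ℕ, u.Prime → u ∣ n1 → ¬ u ∣ v ∧
      ∃ j : ℕ, Tr (mu (t : ZMod v) X) (mu ((u : ZMod v) ^ j) X) := by
    intro u hu hun
    obtain ⟨j, g, hj⟩ := ht u hu hun
    have huv : ¬ u ∣ v := by
      intro huv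
      have h0 := exp_zero (hlam u hu (hun.mul_right m)) hD htu hu huv hj
      subst h0
      have := tr_of_image htu (isUnit_one.pow 0) (by simpa using hj)
      apply hno 1 one_pos (by omega)
      simpa [mu_one] using this
    refine ⟨huv, j, tr_of_image htu (IsUnit.pow _ ?_) hj⟩
    rw [ZMod.isUnit_iff_coprime]
    exact (Nat.Prime.coprime_iff_not_dvd hu).mpr huv
  have hEex : ∀ i : ℕ, ∃ E : GR (ZMod v),
      mu ((t : ZMod v) ^ i) X * cj X - ((lam : ℤ) : GR (ZMod v)) * allG _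
        = ((n1 : ℤ) : GR (ZMod v)) * E := by
    intro i
    apply exists_of_dvd
    intro g
    apply dvd_of_primes
    intro u hu hun a ha
    obtain ⟨huv, j, hj⟩ := ht' u hu hun
    apply cong_of_tr (hj.pow i)
    intro g'
    rw [← pow_mul]
    apply basic_cong u hu huv X _ _ hDS.eq
    have : ((u ^ a : ℕ) : ℤ) ∣ ((n1 * m : ℕ) : ℤ) := Int.natCast_dvd_natCast.mpr (ha.mul_right m)
    exact_mod_cast this
  choose E hE using hEex
  have hEp : ∀ i, E i * cj (E i) = (((m : ℤ) ^ 2 : ℤ) : GR (ZMod v)) ∧ aug (E i) = m :=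
    fun i => E_props hn1' (hDS.map (htu.pow i)) hDS (hE i)
  have hzE : ∀ i, Tr (mu (z : ZMod v) (E i)) (E i) := by
    intro i
    by_cases hc : Tr (mu (z : ZMod v) X) (mu 1 X)
    · have := tr_E hn1' hzu isUnit_one (hE i) hc
      rwa [mu_one] at this
    · apply E_mult hm.ne' (hEp i).1 (hEp i).2
      intro q hq hqm
      obtain ⟨j, g, hj⟩ := hz q hq hqm
      have hqv : ¬ q ∣ v := by
        intro hqv
        have h0 := exp_zero (hlam q hq (hqm.mul_left n1)) hD hzu hq hqv hj
        subst h0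
        exact hc (tr_of_image hzu isUnit_one (by simpa using hj))
      have hqu : IsUnit ((q : ZMod v) ^ j) := by
        apply IsUnit.pow
        rw [ZMod.isUnit_iff_coprime]
        exact (Nat.Prime.coprime_iff_not_dvd hq).mpr hqv
      exact ⟨hqv, j, tr_E hn1' hzu hqu (hE i) (tr_of_image hzu hqu hj)⟩
  have hz1 : IsUnit ((z : ZMod v) - 1) :=
    unit_sub_one z (fun r hr hrv => le_trans (by omega) (hf r hr hrv))
  have hfix : ∀ i, ∃ x : ZMod v, mu (z : ZMod v) (el x * E i) = el x * E i := by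
    intro i
    obtain ⟨g, hg⟩ := hzE i
    obtain ⟨w, hw⟩ := hz1.exists_right_inv
    refine ⟨-(w * g), ?_⟩
    rw [map_mul, mu_el, hg, ← mul_assoc, ← el_add]
    congr 2
    linear_combination (-g) * hw
  choose x hx using hfix
  set A : ℕ → Finset (ZMod v) := fun i =>
    (D.image (fun y => (t : ZMod v) ^ i * y)).image (fun y => y + x i) with hA
  have hAi : ∀ i, ind (A i) = el (x i) * mu ((t : ZMod v) ^ i) X := by
    intro i
    rw [hX, mu_ind (htu.pow i), el_mul_ind]
  have hAD : ∀ i, DS (ind (A i)) ((n1 : ℤ) * m) lam :=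
    fun i => (hDS.map (htu.pow i)).tr ⟨x i, hAi i⟩
  have hAk : ∀ i, (A i).card = k := by
    intro i
    have := (hAD i).card
    rw [aug_ind] at this
    rw [hn]
    zify
    linarith
  have hF0 : ∀ i, ind (A i) * cj X - ((lam : ℤ) : GR (ZMod v)) * allG _
      = ((n1 : ℤ) : GR (ZMod v)) * (el (x i) * E i) := by
    intro i
    have h1 := el_mul_allG (x i)
    rw [hAi]
    linear_combination el (x i) * hE i + ((lam : ℤ) : GR (ZMod v)) * h1
  have hP := plotkin J k ((n1 : ℤ) * f) e A (fun i _ => hAk i) (fun i hi j hj => by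
    set E' := el (x i + -x j) * mu ((t : ZMod v) ^ j) (E (i - j)) with hE'
    have h1 : ind (A i) * cj (ind (A j)) - ((lam : ℤ) : GR (ZMod v)) * allG _
        = ((n1 : ℤ) : GR (ZMod v)) * E' := by
      have h2 := congrArg (mu ((t : ZMod v) ^ j)) (hE (i - j))
      simp only [map_sub, map_mul, map_intCast, mu_cj, mu_allG (htu.pow j), mu_mu] at h2
      rw [← pow_add, Nat.add_sub_cancel' hj.le] at h2
      have h3 := el_mul_allG (x i + -x j)
      rw [hAi, hAi, map_mul, cj_el, hE']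
      rw [el_add] at h3 ⊢
      linear_combination (el (x i) * el (-x j)) * h2 + ((lam : ℤ) : GR (ZMod v)) * h3
    obtain ⟨h2, h3⟩ := E_props hn1' (hAD i) (hAD j) h1
    have h4 : mu (z : ZMod v) E' = E' := by
      have h5 := F_mul (hAD i) hDS (hAD j)
      rw [← cj_F (ind (A j)) X, hF0, hF0, h1] at h5
      have h6 := congrArg (mu (z : ZMod v)) h5
      simp only [map_mul (mu (z : ZMod v)) _ (cj _), map_mul (mu (z : ZMod v)) (_ : GR (ZMod v)) (el _ * _),
        mu_cj, hx, map_intCast] at h6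
      rw [h5, map_mul, map_mul, map_intCast, map_intCast] at h6
      have hn0 : (n1 : ℤ) * m ≠ 0 := mul_ne_zero hn1' (by exact_mod_cast hm.ne')
      exact (intCast_mul_cancel hn1' (intCast_mul_cancel hn0 h6)).symm
    have h7 := congrArg (fun Z : GR (ZMod v) => Z.coeff 0) h1
    simp only [AddMonoidAlgebra.coeff_sub, Finsupp.sub_apply, coeff_intCast_mul, coeff_allG,
      ind_inter] at h7
    rcases coeff_zero_cases m f z hm hmf.le v E' h2 h3 h4 hzv hf with h8 | ⟨r, hr, hrv, h8⟩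
    · exfalso
      rw [h8] at h7
      have h9 : (A i ∩ A j).card = k := by
        rw [hn]
        zify
        linarith
      have h10 : A i ∩ A j = A i :=
        Finset.eq_of_subset_of_card_le inter_subset_left (by rw [h9, hAk])
      have h11 : A i ∩ A j = A j :=
        Finset.eq_of_subset_of_card_le inter_subset_right (by rw [h9, hAk])
      have h12 : Tr (mu ((t : ZMod v) ^ i) X) (mu ((t : ZMod v) ^ j) X) := by
        have ha : Tr (ind (A i)) (mu ((t : ZMod v) ^ i) X) := ⟨x i, hAi i⟩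
        have hb : Tr (ind (A j)) (mu ((t : ZMod v) ^ j) X) := ⟨x j, hAi j⟩
        rw [← h10, h11] at ha
        exact ha.symm.trans hb
      obtain ⟨w, hw⟩ := (htu.pow j).exists_left_inv
      have h13 := h12.map w
      rw [mu_mu, mu_mu, hw, mu_one] at h13
      apply hno (i - j) (by omega) (by omega)
      have h14 : w * (t : ZMod v) ^ i = (t : ZMod v) ^ (i - j) := by
        conv_lhs => rw [← Nat.add_sub_cancel' hj.le, pow_add, ← mul_assoc, hw, one_mul]
      rwa [h14] at h13
    · have h9 : (f : ℤ) ≤ (orderOf (z : ZMod r) : ℕ) := by exact_mod_cast hf r hr hrv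
      have h10 : (0 : ℤ) ≤ n1 := by positivity
      rw [h8] at h7
      rw [hn]
      push_cast
      nlinarith)
  rw [ZMod.card] at hP
  linarith

end Pool.Agent.P.MP_5f6af4_co
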