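import Pool.Agent.P.MP_5f6af4_co.Witt

set_option autoImplicit false
set_option linter.unusedSectionVars false
set_option linter.unusedSimpArgs false

namespace Pool.Agent.P.MP_5f6af4_co

open Finset

lemma card_dvd_sum {Γ : Type} [Group Γ] [Fintype Γ] (u : Γ) (φ : Γ → ℤ)
    (h : ∀ y, φ (y * u) = φ y) : ((orderOf u : ℕ) : ℤ) ∣ ∑ y, φ y := by
  classical
  set H := Subgroup.zpowers u with hH
  have h1 : ∀ (n : ℕ) y, φ (y * u ^ n) = φ y := by
    intro n
    induction n with
    | zero => simp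
    | succ n ih => intro y; rw [pow_succ, ← mul_assoc, h, ih]
  have h2 : ∀ (x : H) y, φ (y * x) = φ y := by
    rintro ⟨x, hx⟩ y
    rw [hH, ← mem_powers_iff_mem_zpowers] at hx
    obtain ⟨n, rfl⟩ := hx
    exact h1 n y
  have hc : Fintype.card H = orderOf u := by
    rw [← Nat.card_eq_fintype_card, hH, Nat.card_zpowers]
  rw [← Finset.sum_fiberwise (s := univ) (g := fun y : Γ => (QuotientGroup.mk y : Γ ⧸ H))]
  refine Finset.dvd_sum fun c _ => ?_
  obtain ⟨y, rfl⟩ := QuotientGroup.mk_surjective c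
  have h3 : univ.filter (fun x : Γ => (QuotientGroup.mk x : Γ ⧸ H) = QuotientGroup.mk y)
      = univ.image (fun x : H => y * (x : Γ)) := by
    ext x
    simp only [mem_filter, mem_univ, true_and, mem_image]
    rw [eq_comm, QuotientGroup.eq]
    constructor
    · intro hx
      exact ⟨⟨_, hx⟩, by simp⟩
    · rintro ⟨w, rfl⟩
      simp
  rw [h3, Finset.sum_image (fun a _ b _ hab => Subtype.ext (mul_left_cancel hab))]
  simp [h2, hc]

section
variable (c r : ℕ) [NeZero c] [NeZero r]

instance neZero_mul : NeZero (c * r) := ⟨mul_ne_zero (NeZero.ne c) (NeZero.ne r)⟩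

/-- the embedding of the kernel -/
def kap (y : ZMod r) : ZMod (c * r) := ((c * y.val : ℕ) : ZMod (c * r))

lemma kap_nat (a : ℕ) : kap c r (a : ZMod r) = ((c * a : ℕ) : ZMod (c * r)) := by
  unfold kap
  rw [ZMod.natCast_eq_natCast_iff, ZMod.val_natCast]
  exact (Nat.mod_modEq a r).mul_left' c

lemma kap_inj : Function.Injective (kap c r) := by
  intro a b h
  unfold kap at h
  rw [ZMod.natCast_eq_natCast_iff] at h
  have := Nat.ModEq.mul_left_cancel' (NeZero.ne c) h
  rw [← ZMod.natCast_eq_natCast_iff] at this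
  simpa using this

lemma kap_mul (z : ℕ) (y : ZMod r) : kap c r (y * z) = (z : ZMod (c * r)) * kap c r y := by
  have : y * z = ((y.val * z : ℕ) : ZMod r) := by simp
  rw [this, kap_nat]
  unfold kap
  push_cast
  ring

/-- reduction map -/
def red : ZMod (c * r) →+ ZMod c := (ZMod.castHom (Dvd.intro r rfl) (ZMod c)).toAddMonoidHom

lemma red_nat (a : ℕ) : red c r (a : ZMod (c * r)) = (a : ZMod c) := by
  simp [red]

lemma red_mul (z : ℕ) (g : ZMod (c * r)) : red c r (z * g) = z * red c r g := by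
  simp [red]

lemma ker_eq : univ.filter (fun g => red c r g = 0) = univ.image (kap c r) := by
  ext g
  simp only [mem_filter, mem_univ, true_and, mem_image]
  constructor
  · intro h
    have h1 : g = ((g.val : ℕ) : ZMod (c * r)) := by simp
    rw [h1, red_nat, ZMod.natCast_eq_zero_iff] at h
    obtain ⟨a, ha⟩ := h
    refine ⟨a, ?_⟩
    rw [kap_nat, ← ha, ← h1]
  · rintro ⟨y, rfl⟩
    unfold kap
    rw [red_nat]
    simp

lemma step_cong (hr : r.Prime) (z : ℕ) (hz : Nat.Coprime z (c * r)) (E : GR (ZMod (c * r)))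
    (hE : mu (z : ZMod (c * r)) E = E) :
    ((orderOf (z : ZMod r) : ℕ) : ℤ) ∣ (push (red c r) E).coeff 0 - E.coeff 0 := by
  have : Fact r.Prime := ⟨hr⟩
  have hzu : IsUnit (z : ZMod (c * r)) := (ZMod.isUnit_iff_coprime z (c * r)).mpr hz
  have hinv : ∀ g, E.coeff ((z : ZMod (c * r)) * g) = E.coeff g := by
    intro g
    have := coeff_push_inj (φ := AddMonoidHom.mulLeft (z : ZMod (c * r)))
      (fun a b h => hzu.mul_left_cancel h) E g
    rw [← this]
    show E.coeff (z * g) = (mu (z : ZMod (c * r)) E).coeff (z * g)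
    rw [hE]
  rw [coeff_push, ker_eq, Finset.sum_image (fun a _ b _ h => kap_inj c r h)]
  have h0 : kap c r 0 = 0 := by simp [kap]
  have hzr : Nat.Coprime z r := Nat.Coprime.coprime_dvd_right (Dvd.intro_left c rfl) hz
  set u : (ZMod r)ˣ := ZMod.unitOfCoprime z hzr with hu
  have hord : orderOf (z : ZMod r) = orderOf u := by
    rw [← orderOf_units, hu, ZMod.coe_unitOfCoprime]
  have hsum : ∑ y : ZMod r, E.coeff (kap c r y)
      = E.coeff 0 + ∑ y : (ZMod r)ˣ, E.coeff (kap c r y) := by
    rw [← Finset.add_sum_erase _ _ (mem_univ (0 : ZMod r)), h0]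
    congr 1
    symm
    apply Finset.sum_bij (fun (y : (ZMod r)ˣ) _ => (y : ZMod r))
    · intro y _
      simp
    · intro a _ b _ h
      exact Units.ext h
    · intro y hy
      have : y ≠ 0 := by simpa using hy
      exact ⟨Units.mk0 y this, mem_univ _, rfl⟩
    · intro y _
      rfl
  rw [hsum, add_sub_cancel_left, hord]
  apply card_dvd_sum u (fun y : (ZMod r)ˣ => E.coeff (kap c r y))
  intro y
  rw [Units.val_mul, hu, ZMod.coe_unitOfCoprime, kap_mul, hinv]

end

/-- The identity coefficient of a solution fixed by `z`. -/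
lemma coeff_zero_cases (m f z : ℕ) (hm : 0 < m) (hmf : m ≤ f) (v : ℕ) :
    ∀ [NeZero v] (E : GR (ZMod v)), E * cj E = (((m : ℤ) ^ 2 : ℤ) : GR (ZMod v)) → aug E = m →
      mu (z : ZMod v) E = E → Nat.Coprime z v →
      (∀ r : ℕ, r.Prime → r ∣ v → f ≤ orderOf (z : ZMod r)) →
      E.coeff 0 = m ∨ ∃ r : ℕ, r.Prime ∧ r ∣ v ∧ E.coeff 0 = m - (orderOf (z : ZMod r) : ℕ) := by
  induction v using Nat.strong_induction_on with
  | _ v ih =>
  intro _ E hE ha hz hzv hf
  by_cases hv : v = 1
  · subst hv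
    left
    rw [← ha, aug_eq]
    rw [Fintype.sum_subsingleton _ (0 : ZMod 1)]
  have hne : v.primeFactors.Nonempty := by
    rw [Nat.nonempty_primeFactors]
    have := NeZero.ne v
    omega
  obtain ⟨r, hr, hmax⟩ := Finset.exists_max_image v.primeFactors
    (fun r : ℕ => orderOf (z : ZMod r)) hne
  have hrp : r.Prime := Nat.prime_of_mem_primeFactors hr
  obtain ⟨c, hc⟩ := Nat.dvd_of_mem_primeFactors hr
  rw [mul_comm] at hc
  subst hc
  have hc0 : c ≠ 0 := fun h => NeZero.ne (c * r) (by simp [h])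
  have : NeZero c := ⟨hc0⟩
  have : NeZero r := ⟨hrp.ne_zero⟩
  have hlt : c < c * r := by
    have := hrp.one_lt
    have := Nat.pos_of_ne_zero hc0
    nlinarith
  set E' := push (red c r) E with hE'
  have h1 : E' * cj E' = (((m : ℤ) ^ 2 : ℤ) : GR (ZMod c)) := by
    rw [hE', ← push_cj, ← map_mul, hE, map_intCast]
  have h2 : aug E' = m := by rw [hE', aug_push, ha]
  have h3 : mu (z : ZMod c) E' = E' := by
    conv_rhs => rw [hE', ← hz]
    rw [hE', mu, mu, push_push, push_push]
    apply push_congr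
    intro g
    simp [red_mul]
  have h4 : Nat.Coprime z c := Nat.Coprime.coprime_dvd_right (Dvd.intro r rfl) hzv
  have h5 := ih c hlt E' h1 h2 h3 h4 (fun s hs hsc => hf s hs (hsc.mul_right r))
  obtain ⟨s, hs⟩ := step_cong c r hrp z hzv E hz
  rw [← hE'] at hs
  have hb := sq_le hE 0
  have hb1 : E.coeff 0 ≤ m := by nlinarith [abs_le_of_sq_le_sq' hb (by positivity : (0 : ℤ) ≤ m)]
  have hb2 : -(m : ℤ) < E.coeff 0 := by
    have h6 := (abs_le_of_sq_le_sq' hb (by positivity : (0 : ℤ) ≤ m)).1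
    refine lt_of_le_of_ne h6 fun h7 => ?_
    have h8 := eq_single_of_sq hE 0 (by rw [← h7]; ring)
    rw [h8] at ha
    simp only [map_mul, map_intCast, aug_el, mul_one, Int.cast_id] at ha
    omega
  have hfr : (m : ℤ) ≤ (orderOf (z : ZMod r) : ℕ) := by
    exact_mod_cast hmf.trans (hf r hrp (Dvd.intro_left c rfl))
  set F : ℤ := ((orderOf (z : ZMod r) : ℕ) : ℤ) with hF
  have hm' : (0 : ℤ) < m := by exact_mod_cast hm
  rcases h5 with h5 | ⟨r', hr', hr'c, h5⟩
  · rw [h5] at hs
    have hs0 : 0 ≤ s := by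
      by_contra hcon
      have : s ≤ -1 := by omega
      nlinarith
    have hs1 : s ≤ 1 := by
      by_contra hcon
      have : 2 ≤ s := by omega
      nlinarith
    have : s = 0 ∨ s = 1 := by omega
    rcases this with rfl | rfl
    · left; linarith
    · right
      exact ⟨r, hrp, Dvd.intro_left c rfl, by linarith⟩
  · have hr'v : r' ∣ c * r := hr'c.mul_right r
    have hfr' : (m : ℤ) ≤ (orderOf (z : ZMod r') : ℕ) := by
      exact_mod_cast hmf.trans (hf r' hr' hr'v)
    have hle : ((orderOf (z : ZMod r') : ℕ) : ℤ) ≤ F := by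
      have := hmax r' (Nat.mem_primeFactors.mpr ⟨hr', hr'v, NeZero.ne _⟩)
      rw [hF]
      exact_mod_cast this
    set F' : ℤ := ((orderOf (z : ZMod r') : ℕ) : ℤ) with hF'
    rw [h5] at hs
    rcases lt_trichotomy s 0 with hs0 | hs0 | hs0
    · left
      have : s ≤ -1 := by omega
      nlinarith
    · right
      subst hs0
      exact ⟨r', hr', hr'v, by linarith⟩
    · exfalso
      have : 1 ≤ s := by omega
      nlinarith

end Pool.Agent.P.MP_5f6af4_co
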