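import Mathlib

set_option autoImplicit false
set_option linter.unusedSectionVars false
set_option linter.unusedSimpArgs false

namespace Pool.Agent.P.MP_5f6af4_co

open Finset AddMonoidAlgebra

section
variable {G H K : Type} [AddCommGroup G] [AddCommGroup H] [AddCommGroup K]

/-- integral group ring -/
abbrev GR (G : Type) : Type := AddMonoidAlgebra ℤ G

/-- push forward along a group homomorphism -/
noncomputable def push (φ : G →+ H) : GR G →+* GR H := AddMonoidAlgebra.mapDomainRingHom ℤ φ

/-- the involution -/
noncomputable def cj : GR G →+* GR G := push negAddMonoidHom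

/-- augmentation -/
noncomputable def aug : GR G →+* ℤ := (AddMonoidAlgebra.lift ℤ ℤ G 1).toRingHom

/-- group element -/
noncomputable def el (g : G) : GR G := AddMonoidAlgebra.single g 1

lemma push_single (φ : G →+ H) (g : G) (a : ℤ) :
    push φ (AddMonoidAlgebra.single g a) = AddMonoidAlgebra.single (φ g) a := by
  simp [push]

lemma push_el (φ : G →+ H) (g : G) : push φ (el g) = el (φ g) := push_single φ g 1

lemma aug_single (g : G) (a : ℤ) : aug (AddMonoidAlgebra.single g a) = a := by
  simp [aug]

lemma aug_el (g : G) : aug (el g) = 1 := aug_single g 1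

lemma el_add (g h : G) : el (g + h) = el g * el h := by
  simp [el, AddMonoidAlgebra.single_mul_single]

lemma el_zero : el (0 : G) = 1 := rfl

lemma cj_el (g : G) : cj (el g) = el (-g) := push_el _ g

lemma el_mul_cj (g : G) : el g * cj (el g) = 1 := by
  rw [cj_el, ← el_add, add_neg_cancel, el_zero]

lemma push_push (φ : G →+ H) (ψ : H →+ K) (X : GR G) :
    push ψ (push φ X) = push (ψ.comp φ) X := by
  induction X using AddMonoidAlgebra.induction_linear with
  | zero => simp
  | add x y hx hy => simp [hx, hy]
  | single g a => simp [push_single]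

lemma push_congr {φ ψ : G →+ H} (h : ∀ g, φ g = ψ g) (X : GR G) : push φ X = push ψ X := by
  have : φ = ψ := AddMonoidHom.ext h
  rw [this]

lemma push_id' {φ : G →+ G} (h : ∀ g, φ g = g) (X : GR G) : push φ X = X := by
  induction X using AddMonoidAlgebra.induction_linear with
  | zero => simp
  | add x y hx hy => simp [hx, hy]
  | single g a => simp [push_single, h]

lemma push_cj (φ : G →+ H) (X : GR G) : push φ (cj X) = cj (push φ X) := by
  unfold cj
  rw [push_push, push_push]
  exact push_congr (fun g => by simp) X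

lemma cj_cj (X : GR G) : cj (cj X) = X := by
  unfold cj
  rw [push_push]
  exact push_id' (fun g => by simp) X

lemma aug_push (φ : G →+ H) (X : GR G) : aug (push φ X) = aug X := by
  induction X using AddMonoidAlgebra.induction_linear with
  | zero => simp
  | add x y hx hy => simp [hx, hy]
  | single g a => simp [push_single, aug_single]

lemma aug_cj (X : GR G) : aug (cj X) = aug X := aug_push _ X

lemma coeff_intCast_mul (c : ℤ) (X : GR G) (g : G) :
    ((c : GR G) * X).coeff g = c * X.coeff g := by
  rw [← zsmul_eq_mul, AddMonoidAlgebra.coeff_smul_apply, smul_eq_mul]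

lemma ext_coeff {X Y : GR G} (h : ∀ g, X.coeff g = Y.coeff g) : X = Y := by
  apply AddMonoidAlgebra.coeff_injective
  ext g
  exact h g

lemma intCast_mul_cancel {c : ℤ} (hc : c ≠ 0) {X Y : GR G}
    (h : (c : GR G) * X = (c : GR G) * Y) : X = Y := by
  apply ext_coeff
  intro g
  have := congrArg (fun Z : GR G => Z.coeff g) h
  simp only [coeff_intCast_mul] at this
  exact mul_left_cancel₀ hc this

lemma coeff_el_mul (g : G) (X : GR G) (h : G) : (el g * X).coeff h = X.coeff (-g + h) := by
  unfold el
  rw [AddMonoidAlgebra.coeff_single_mul_apply, one_mul]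

lemma coeff_push_inj {φ : G →+ H} (hφ : Function.Injective φ) (X : GR G) (g : G) :
    (push φ X).coeff (φ g) = X.coeff g := by
  show (Finsupp.mapDomain φ X.coeff) (φ g) = _
  exact Finsupp.mapDomain_apply hφ _ _

lemma coeff_cj (X : GR G) (g : G) : (cj X).coeff g = X.coeff (-g) := by
  have := coeff_push_inj (φ := (negAddMonoidHom : G →+ G)) neg_injective X (-g)
  simpa [cj] using this

variable [Fintype G] [DecidableEq G]

lemma coeff_el (g h : G) : (el g).coeff h = if g = h then 1 else 0 := by
  unfold el
  rw [AddMonoidAlgebra.coeff_single, Finsupp.single_apply]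

lemma eq_sum (X : GR G) : X = ∑ g, AddMonoidAlgebra.single g (X.coeff g) := by
  apply ext_coeff
  intro h
  simp [Finsupp.single_apply]

lemma aug_eq (X : GR G) : aug X = ∑ g, X.coeff g := by
  conv_lhs => rw [eq_sum X]
  simp [aug_single]

lemma coeff_push [DecidableEq H] (φ : G →+ H) (X : GR G) (y : H) :
    (push φ X).coeff y = ∑ g ∈ univ.filter (fun g => φ g = y), X.coeff g := by
  conv_lhs => rw [eq_sum X]
  simp [push_single, Finsupp.single_apply, Finset.sum_filter]

lemma exists_of_dvd (c : ℤ) (X : GR G) (h : ∀ g, c ∣ X.coeff g) :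
    ∃ Y : GR G, X = (c : GR G) * Y := by
  choose y hy using h
  refine ⟨∑ g, AddMonoidAlgebra.single g (y g), ?_⟩
  apply ext_coeff
  intro g
  rw [coeff_intCast_mul, hy g]
  simp [Finsupp.single_apply]

lemma coeff_mul' (X Y : GR G) (g : G) :
    (X * Y).coeff g = ∑ h, X.coeff h * Y.coeff (-h + g) := by
  rw [AddMonoidAlgebra.coeff_mul_apply_left, Finsupp.sum_fintype]
  intro h
  simp

lemma coeff_mul_cj (X Y : GR G) (g : G) :
    (X * cj Y).coeff g = ∑ h, X.coeff h * Y.coeff (h - g) := by
  rw [coeff_mul']
  refine Finset.sum_congr rfl fun h _ => ?_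
  rw [coeff_cj]
  congr 2
  abel

lemma coeff_mul_cj_zero (X Y : GR G) :
    (X * cj Y).coeff 0 = ∑ h, X.coeff h * Y.coeff h := by
  simp [coeff_mul_cj]

lemma coeff_intCast (c : ℤ) (g : G) : (c : GR G).coeff g = if 0 = g then c else 0 := by
  have : (c : GR G) = (c : GR G) * el 0 := by rw [el_zero, mul_one]
  rw [this, coeff_intCast_mul, coeff_el]
  split_ifs <;> simp

/-- the sum of all group elements -/
noncomputable def allG (G : Type) [AddCommGroup G] [Fintype G] : GR G := ∑ g, el g

lemma coeff_allG (g : G) : (allG G).coeff g = 1 := by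
  simp [allG, coeff_el]

lemma mul_allG (X : GR G) : X * allG G = ((aug X : ℤ) : GR G) * allG G := by
  apply ext_coeff
  intro g
  rw [coeff_mul', coeff_intCast_mul, aug_eq]
  simp [coeff_allG]

lemma aug_allG : aug (allG G) = Fintype.card G := by
  simp [aug_eq, coeff_allG]

lemma push_allG {φ : G →+ G} (hφ : Function.Injective φ) : push φ (allG G) = allG G := by
  apply ext_coeff
  intro g
  obtain ⟨h, rfl⟩ := (Finite.injective_iff_surjective.mp hφ) g
  rw [coeff_push_inj hφ, coeff_allG, coeff_allG]

lemma cj_allG : cj (allG G) = allG G := push_allG neg_injective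

/-- sum of squares -/
lemma sum_sq {E : GR G} {M : ℤ} (h : E * cj E = (M : GR G)) : ∑ g, E.coeff g ^ 2 = M := by
  have := congrArg (fun Z : GR G => Z.coeff 0) h
  simp only [coeff_mul_cj_zero, coeff_intCast, if_true] at this
  rw [← this]
  exact Finset.sum_congr rfl fun g _ => by ring

lemma sq_le {E : GR G} {M : ℤ} (h : E * cj E = (M : GR G)) (g : G) : E.coeff g ^ 2 ≤ M := by
  rw [← sum_sq h]
  exact Finset.single_le_sum (f := fun g => E.coeff g ^ 2) (fun _ _ => sq_nonneg _) (mem_univ g)

lemma eq_single_of_sq {E : GR G} {M : ℤ} (h : E * cj E = (M : GR G)) (g : G)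
    (hg : E.coeff g ^ 2 = M) : E = ((E.coeff g : ℤ) : GR G) * el g := by
  have h1 := sum_sq h
  rw [← Finset.add_sum_erase _ _ (mem_univ g), hg, add_eq_left,
    Finset.sum_eq_zero_iff_of_nonneg (fun _ _ => sq_nonneg _)] at h1
  apply ext_coeff
  intro x
  rw [coeff_intCast_mul, coeff_el]
  split_ifs with hx
  · rw [hx, mul_one]
  · have := h1 x (by simp [Ne.symm hx])
    simpa using this

lemma trivial_unit {W : GR G} (h : W * cj W = 1) (ha : aug W = 1) : ∃ g, W = el g := by
  have h' : W * cj W = ((1 : ℤ) : GR G) := by simpa using h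
  have h1 := sum_sq h'
  have : ∃ g, W.coeff g ≠ 0 := by
    by_contra hc
    push Not at hc
    simp [hc] at h1
  obtain ⟨g, hg⟩ := this
  have h2 := sq_le h' g
  have h3 : W.coeff g ^ 2 = 1 := by
    have : 0 < W.coeff g ^ 2 := by positivity
    omega
  have h4 := eq_single_of_sq h' g h3
  have h5 : W.coeff g = 1 := by
    rw [h4] at ha
    simpa [aug_el] using ha
  refine ⟨g, ?_⟩
  rw [h4, h5]
  simp

/-- indicator of a finite set -/
noncomputable def ind (D : Finset G) : GR G := ∑ d ∈ D, el d

lemma coeff_ind (D : Finset G) (g : G) : (ind D).coeff g = if g ∈ D then 1 else 0 := by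
  simp [ind, coeff_el]

lemma aug_ind (D : Finset G) : aug (ind D) = D.card := by
  simp [ind, aug_el]

lemma ind_inj {A B : Finset G} (h : ind A = ind B) : A = B := by
  ext g
  have := congrArg (fun Z : GR G => Z.coeff g) h
  simp only [coeff_ind] at this
  by_cases ha : g ∈ A <;> by_cases hb : g ∈ B <;> simp_all

lemma push_ind {φ : G →+ G} (hφ : Function.Injective φ) (D : Finset G) :
    push φ (ind D) = ind (D.image φ) := by
  unfold ind
  rw [map_sum, Finset.sum_image (fun a _ b _ h => hφ h)]
  simp [push_el]

lemma el_mul_ind (g : G) (D : Finset G) : el g * ind D = ind (D.image (fun x => x + g)) := by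
  unfold ind
  rw [Finset.mul_sum, Finset.sum_image (fun a _ b _ h => add_right_cancel h)]
  refine Finset.sum_congr rfl fun d _ => ?_
  rw [← el_add, add_comm]

lemma ind_inter (A B : Finset G) : (ind A * cj (ind B)).coeff 0 = (A ∩ B).card := by
  rw [coeff_mul_cj_zero]
  simp only [coeff_ind]
  rw [Finset.card_eq_sum_ones, Nat.cast_sum]
  rw [← Finset.sum_subset (Finset.subset_univ (A ∩ B))]
  · refine Finset.sum_congr rfl fun x hx => ?_
    rw [mem_inter] at hx
    simp [hx.1, hx.2]
  · intro x _ hx
    rw [mem_inter] at hx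
    by_cases ha : x ∈ A <;> by_cases hb : x ∈ B <;> simp_all

lemma ind_mul_cj (D : Finset G) (g : G) :
    (ind D * cj (ind D)).coeff g = ((D ×ˢ D).filter (fun x => x.1 - x.2 = g)).card := by
  unfold ind
  rw [map_sum, Finset.sum_mul_sum, ← Finset.sum_product']
  simp only [cj_el, ← el_add, AddMonoidAlgebra.coeff_sum, Finsupp.finsetSum_apply, coeff_el]
  rw [Finset.card_filter]
  push_cast
  refine Finset.sum_congr rfl fun x _ => ?_
  rw [sub_eq_add_neg]

end

end Pool.Agent.P.MP_5f6af4_co
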