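import Pool.Agent.P.MP_5f6af4_co.Ring

set_option autoImplicit false
set_option linter.unusedSectionVars false
set_option linter.unusedSimpArgs false

namespace Pool.Agent.P.MP_5f6af4_co

open Finset

/-- multiplication of the group elements by `t` -/
noncomputable def mu {v : ℕ} (t : ZMod v) : GR (ZMod v) →+* GR (ZMod v) :=
  push (AddMonoidHom.mulLeft t)

section
variable {v : ℕ} [NeZero v]

/-- evaluation at an additive character -/
noncomputable def ev {S : Type} [CommRing S] (ψ : AddChar (ZMod v) S) : GR (ZMod v) →+* S :=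
  (AddMonoidAlgebra.lift ℤ S (ZMod v) ψ.toMonoidHom).toRingHom

lemma ev_single {S : Type} [CommRing S] (ψ : AddChar (ZMod v) S) (g : ZMod v) (a : ℤ) :
    ev ψ (AddMonoidAlgebra.single g a) = (a : S) * ψ g := by
  simp [ev]

lemma ev_eq {S : Type} [CommRing S] (ψ : AddChar (ZMod v) S) (X : GR (ZMod v)) :
    ev ψ X = ∑ g, (X.coeff g : S) * ψ g := by
  conv_lhs => rw [eq_sum X]
  simp [ev_single]

lemma inversion {S : Type} [CommRing S] [IsDomain S] {ψ : AddChar (ZMod v) S}
    (hψ : ψ.IsPrimitive) (X : GR (ZMod v)) (g : ZMod v) :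
    ∑ j, ev (ψ.mulShift j) X * ψ (j * (-g)) = ((v * X.coeff g : ℤ) : S) := by
  simp only [ev_eq, Finset.sum_mul, AddChar.mulShift_apply]
  rw [Finset.sum_comm]
  have : ∀ h : ZMod v, ∑ j, (X.coeff h : S) * ψ (j * h) * ψ (j * -g)
      = if h = g then ((v * X.coeff g : ℤ) : S) else 0 := by
    intro h
    have h1 : ∀ j : ZMod v, (X.coeff h : S) * ψ (j * h) * ψ (j * -g)
        = (X.coeff h : S) * ψ (j * (h - g)) := by
      intro j
      rw [mul_assoc, ← AddChar.map_add_eq_mul]
      congr 2
      ring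
    simp only [h1, ← Finset.mul_sum]
    rw [AddChar.sum_mulShift _ hψ]
    by_cases hh : h = g
    · subst hh
      simp [ZMod.card, mul_comm]
    · simp [hh, sub_eq_zero]
  rw [Finset.sum_congr rfl fun h _ => this h]
  simp

end

section
variable (q : ℕ) [hq : Fact q.Prime]

abbrev Kq : Type := AlgebraicClosure (ZMod q)

abbrev Wq : Type := WittVector q (Kq q)

lemma witt_int_dvd (a : ℕ) (y : ℤ) (h : (q : Wq q) ^ a ∣ (y : Wq q)) : (q : ℤ) ^ a ∣ y := by
  have hirr : Irreducible (q : Wq q) := WittVector.irreducible q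
  induction a generalizing y with
  | zero => simp
  | succ a ih =>
    have h1 : (q : ℤ) ∣ y := by
      by_contra hc
      have hp : Prime (q : ℤ) := Nat.prime_iff_prime_int.mp hq.out
      have hcop : IsCoprime (q : ℤ) y := (Prime.coprime_iff_not_dvd hp).mpr hc
      have hcop' : IsCoprime (q : Wq q) (y : Wq q) := by
        simpa using hcop.map (Int.castRingHom (Wq q))
      have h2 : (q : Wq q) ∣ (y : Wq q) := (dvd_pow_self _ (Nat.succ_ne_zero a)).trans h
      exact hirr.not_isUnit (hcop'.isUnit_of_dvd' dvd_rfl h2)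
    obtain ⟨y', rfl⟩ := h1
    rw [pow_succ', mul_dvd_mul_iff_left (by exact_mod_cast hq.out.ne_zero)]
    apply ih
    push_cast at h
    rwa [pow_succ', mul_dvd_mul_iff_left hirr.ne_zero] at h

lemma witt_twist (Φ : Wq q →+* Wq q) (x x' d : Wq q) (h : d ∣ x * x') : d ∣ Φ x * x' := by
  by_cases hx : x = 0
  · simp [hx]
  obtain ⟨m, b, rfl⟩ := WittVector.exists_eq_pow_p_mul' x hx
  have : Φ ((q : Wq q) ^ m * b) * x' = ((q : Wq q) ^ m * b * x') * (((b⁻¹ : (Wq q)ˣ) : Wq q) * Φ b) := by
    rw [map_mul, map_pow, map_natCast]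
    have hb : (b : Wq q) * ((b⁻¹ : (Wq q)ˣ) : Wq q) = 1 := by simp
    linear_combination (-((q : Wq q) ^ m * Φ b * x')) * hb
  rw [this]
  exact h.mul_right _

end

/-- The basic congruence. -/
lemma basic_cong {v : ℕ} [NeZero v] (q : ℕ) (hq : q.Prime) (hqv : ¬ q ∣ v)
    (X : GR (ZMod v)) (N c : ℤ) (hX : X * cj X = (N : GR (ZMod v)) + (c : GR (ZMod v)) * allG _)
    (a : ℕ) (ha : (q : ℤ) ^ a ∣ N) (i : ℕ) (g : ZMod v) :
    (q : ℤ) ^ a ∣ (mu ((q : ZMod v) ^ i) X * cj X - (c : GR (ZMod v)) * allG _).coeff g := by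
  have : Fact q.Prime := ⟨hq⟩
  have : NeZero ((v : ℕ) : Kq q) := ⟨by
    rw [Ne, CharP.cast_eq_zero_iff (Kq q) q]
    exact hqv⟩
  obtain ⟨ζ, hζ⟩ := HasEnoughRootsOfUnity.exists_primitiveRoot (Kq q) v
  have hinj : Function.Injective (WittVector.teichmuller q : Kq q →* Wq q) := by
    intro a b hab
    have := congrArg (fun w : Wq q => w.coeff 0) hab
    simpa using this
  have hζ' : IsPrimitiveRoot (WittVector.teichmuller q ζ) v := hζ.map_of_injective hinj
  set ψ : AddChar (ZMod v) (Wq q) := AddChar.zmodChar v hζ'.pow_eq_one with hψdef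
  have hψ : ψ.IsPrimitive := AddChar.zmodChar_primitive_of_primitive_root v hζ'
  set Φ : Wq q →+* Wq q := WittVector.map (iterateFrobenius (Kq q) q i) with hΦ
  have hΦψ : ∀ x : ZMod v, Φ (ψ x) = ψ ((q : ZMod v) ^ i * x) := by
    intro x
    have h1 : ψ ((q : ZMod v) ^ i * x) = ψ x ^ (q ^ i) := by
      rw [← AddChar.map_nsmul_eq_pow, nsmul_eq_mul]
      push_cast
      rfl
    rw [h1, hψdef, AddChar.zmodChar_apply, ← map_pow, hΦ, WittVector.map_teichmuller,
      iterateFrobenius_def, map_pow]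
  have hev : ∀ (j : ZMod v) (Y : GR (ZMod v)),
      ev (ψ.mulShift j) (mu ((q : ZMod v) ^ i) Y) = Φ (ev (ψ.mulShift j) Y) := by
    intro j Y
    induction Y using AddMonoidAlgebra.induction_linear with
    | zero => simp
    | add x y hx hy => simp [hx, hy]
    | single g a =>
      rw [mu, push_single, ev_single, ev_single, map_mul, map_intCast, AddChar.mulShift_apply,
        AddChar.mulShift_apply, hΦψ]
      congr 2
      simp only [AddMonoidHom.coe_mulLeft]
      ring
  have ha' : (q : Wq q) ^ a ∣ (N : Wq q) := by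
    have := map_dvd (Int.castRingHom (Wq q)) ha
    simpa using this
  have hall : ∀ j : ZMod v, (q : Wq q) ^ a ∣
      ev (ψ.mulShift j) (mu ((q : ZMod v) ^ i) X * cj X - (c : GR (ZMod v)) * allG _) := by
    intro j
    have h1 := congrArg (ev (ψ.mulShift j)) hX
    simp only [map_mul, map_add, map_intCast] at h1
    simp only [map_sub, map_mul, map_intCast, hev]
    by_cases hj : j = 0
    · have h2 : Φ (ev (ψ.mulShift j) X) = ev (ψ.mulShift j) X := by
        rw [hj, ev_eq]
        simp
      rw [h2, h1]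
      simpa using ha'
    · have h2 : ev (ψ.mulShift j) (allG (ZMod v)) = 0 := by
        rw [ev_eq]
        simp only [coeff_allG, Int.cast_one, one_mul, AddChar.mulShift_apply]
        have := AddChar.sum_mulShift j hψ
        simp only [hj, if_false, Nat.cast_zero] at this
        rw [← this]
        exact Finset.sum_congr rfl fun x _ => by rw [mul_comm]
      rw [h2, mul_zero, add_zero] at h1
      rw [h2, mul_zero, sub_zero]
      apply witt_twist
      rw [h1]
      exact ha'
  have h3 := inversion hψ (mu ((q : ZMod v) ^ i) X * cj X - (c : GR (ZMod v)) * allG _) g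
  have h4 : (q : Wq q) ^ a ∣ (((v : ℤ) *
      (mu ((q : ZMod v) ^ i) X * cj X - (c : GR (ZMod v)) * allG _).coeff g : ℤ) : Wq q) := by
    rw [← h3]
    exact Finset.dvd_sum fun j _ => (hall j).mul_right _
  have h5 := witt_int_dvd q a _ h4
  have hcop : IsCoprime ((q : ℤ) ^ a) (v : ℤ) := by
    apply IsCoprime.pow_left
    rw [Nat.isCoprime_iff_coprime]
    exact (Nat.Prime.coprime_iff_not_dvd hq).mpr hqv
  exact hcop.dvd_of_dvd_mul_left h5

end Pool.Agent.P.MP_5f6af4_co
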